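import Pool.Agent.Helper9.SK.St

/-!
# Project SK, module TYP: type two sums
-/

set_option autoImplicit false

namespace Pool.Agent.Helper63.SK

open Finset ArithmeticFunction MeasureTheory
open Pool.Agent.Helper48.BK (ex th Pz Vz lz gs Sx Apx)
open Pool.Agent.Helper9.SK

private theorem ex_sub (s t : ℝ) : ex (s - t) = ex s * (starRingEnd ℂ) (ex t) := by
  unfold ex
  rw [← Complex.exp_conj, ← Complex.exp_add]
  congr 1
  simp only [map_mul, Complex.conj_ofReal, Complex.conj_I, map_ofNat]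
  push_cast
  ring

private theorem ex_zero : ex 0 = 1 := by
  unfold ex
  simp

private theorem norm_ex (t : ℝ) : ‖ex t‖ = 1 := by
  unfold ex
  have : 2 * (Real.pi : ℂ) * (t : ℂ) * Complex.I = ((2 * Real.pi * t : ℝ) : ℂ) * Complex.I := by
    push_cast
    ring
  rw [this, Complex.norm_exp_ofReal_mul_I]

/-- splitting of a symmetric double sum -/
private theorem sym_sum (U : ℕ) (g : ℕ → ℕ → ℝ) (hs : ∀ u u', g u u' = g u' u) :
    ∑ u ∈ Icc 1 U, ∑ u' ∈ Icc 1 U, g u u' =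
      ∑ u ∈ Icc 1 U, g u u + 2 * ∑ u ∈ Icc 1 U, ∑ u' ∈ Ico 1 u, g u u' := by
  have h1 : ∀ u ∈ Icc 1 U, ∑ u' ∈ Icc 1 U, g u u' =
      g u u + (∑ u' ∈ Ico 1 u, g u u' + ∑ u' ∈ Ioc u U, g u u') := by
    intro u hu
    rw [mem_Icc] at hu
    have e : Icc 1 U = insert u (Ico 1 u ∪ Ioc u U) := by
      ext w
      simp only [mem_Icc, mem_insert, mem_union, mem_Ico, mem_Ioc]
      omega
    rw [e, sum_insert, sum_union]
    · rw [disjoint_left]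
      intro w hw hw'
      simp only [mem_Ico, mem_Ioc] at hw hw'
      omega
    · simp only [mem_union, mem_Ico, mem_Ioc]
      omega
  rw [sum_congr rfl h1, sum_add_distrib, sum_add_distrib]
  have h2 : ∑ u ∈ Icc 1 U, ∑ u' ∈ Ioc u U, g u u' = ∑ u ∈ Icc 1 U, ∑ u' ∈ Ico 1 u, g u u' := by
    rw [sum_comm' (s := Icc 1 U) (t := fun u => Ioc u U) (t' := Icc 1 U) (s' := fun v => Ico 1 v)]
    · refine sum_congr rfl fun v _ => sum_congr rfl fun u _ => hs u v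
    · intro x y
      simp only [mem_Icc, mem_Ioc, mem_Ico]
      omega
  rw [h2]
  ring

/-- the inner sum -/
private noncomputable def TT (M : ℕ) (α : ℝ) (u u' : ℕ) : ℂ :=
  ∑ v ∈ Icc 1 M, ex ((((ff u : ℕ) : ℝ) - (ff u' : ℕ)) * α * ((ff v : ℕ) : ℝ))

private theorem TT_symm (M : ℕ) (α : ℝ) (u u' : ℕ) : ‖TT M α u u'‖ = ‖TT M α u' u‖ := by
  have : TT M α u u' = (starRingEnd ℂ) (TT M α u' u) := by
    unfold TT
    rw [map_sum]
    refine sum_congr rfl fun v _ => ?_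
    have e : (((ff u : ℕ) : ℝ) - (ff u' : ℕ)) * α * ((ff v : ℕ) : ℝ) =
        0 - (((ff u' : ℕ) : ℝ) - (ff u : ℕ)) * α * ((ff v : ℕ) : ℝ) := by ring
    rw [e, ex_sub, ex_zero, one_mul]
  rw [this, Complex.norm_conj]

private theorem TT_self (M : ℕ) (α : ℝ) (u : ℕ) : ‖TT M α u u‖ = M := by
  have : TT M α u u = M := by
    unfold TT
    have : ∀ v ∈ Icc 1 M, ex ((((ff u : ℕ) : ℝ) - (ff u : ℕ)) * α * ((ff v : ℕ) : ℝ)) = 1 := by
      intro v _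
      rw [sub_self, zero_mul, zero_mul, ex_zero]
    rw [sum_congr rfl this]
    simp
  rw [this]
  simp

/-- the first Cauchy-Schwarz step -/
private theorem step1 (U M : ℕ) (α G : ℝ) (a c : ℕ → ℝ) (hG : 0 ≤ G) (ha : ∀ n, |a n| ≤ G)
    (hc : ∀ n, |c n| ≤ G) :
    ‖eS U M a c α‖ ^ 2 ≤ G ^ 4 * M * ∑ u ∈ Icc 1 U, ∑ u' ∈ Icc 1 U, ‖TT M α u u'‖ := by
  set W : ℕ → ℂ := fun v => ∑ u ∈ Icc 1 U, (a u : ℂ) * ex (((ff u * ff v : ℕ) : ℝ) * α) with hW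
  have e1 : eS U M a c α = ∑ v ∈ Icc 1 M, (c v : ℂ) * W v := by
    unfold eS
    rw [sum_comm]
    refine sum_congr rfl fun v _ => ?_
    rw [hW, mul_sum]
    refine sum_congr rfl fun u _ => ?_
    push_cast
    ring
  have e2 : ‖eS U M a c α‖ ≤ ∑ v ∈ Icc 1 M, G * ‖W v‖ := by
    rw [e1]
    refine (norm_sum_le _ _).trans (sum_le_sum fun v _ => ?_)
    rw [norm_mul, Complex.norm_real, Real.norm_eq_abs]
    exact mul_le_mul_of_nonneg_right (hc v) (norm_nonneg _)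
  have e3 : ‖eS U M a c α‖ ^ 2 ≤ (M : ℝ) * ∑ v ∈ Icc 1 M, (G * ‖W v‖) ^ 2 := by
    have h1 : ‖eS U M a c α‖ ^ 2 ≤ (∑ v ∈ Icc 1 M, G * ‖W v‖) ^ 2 :=
      pow_le_pow_left₀ (norm_nonneg _) e2 2
    have h2 := sq_sum_le_card_mul_sum_sq (s := Icc 1 M) (f := fun v => G * ‖W v‖)
    have h3 : ((Icc 1 M).card : ℝ) = M := by simp
    rw [h3] at h2
    exact h1.trans h2
  have e4 : ∀ v, ((‖W v‖ ^ 2 : ℝ) : ℂ) = ∑ u ∈ Icc 1 U, ∑ u' ∈ Icc 1 U,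
      ((a u * a u' : ℝ) : ℂ) * ex ((((ff u : ℕ) : ℝ) - (ff u' : ℕ)) * α * ((ff v : ℕ) : ℝ)) := by
    intro v
    have h1 : ((‖W v‖ ^ 2 : ℝ) : ℂ) = W v * (starRingEnd ℂ) (W v) := by
      rw [Complex.mul_conj, Complex.normSq_eq_norm_sq]
    rw [h1, hW]
    simp only
    rw [map_sum, sum_mul_sum]
    refine sum_congr rfl fun u _ => sum_congr rfl fun u' _ => ?_
    have e : (((ff u : ℕ) : ℝ) - (ff u' : ℕ)) * α * ((ff v : ℕ) : ℝ) =
        ((ff u * ff v : ℕ) : ℝ) * α - ((ff u' * ff v : ℕ) : ℝ) * α := by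
      push_cast
      ring
    rw [e, ex_sub, map_mul, Complex.conj_ofReal]
    push_cast
    ring
  have e5 : ∑ v ∈ Icc 1 M, ‖W v‖ ^ 2 ≤
      G ^ 2 * ∑ u ∈ Icc 1 U, ∑ u' ∈ Icc 1 U, ‖TT M α u u'‖ := by
    have h1 : ((∑ v ∈ Icc 1 M, ‖W v‖ ^ 2 : ℝ) : ℂ) =
        ∑ u ∈ Icc 1 U, ∑ u' ∈ Icc 1 U, ((a u * a u' : ℝ) : ℂ) * TT M α u u' := by
      rw [Complex.ofReal_sum, sum_congr rfl fun v _ => e4 v, sum_comm]
      refine sum_congr rfl fun u _ => ?_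
      rw [sum_comm]
      refine sum_congr rfl fun u' _ => ?_
      unfold TT
      rw [mul_sum]
    have h2 : ∑ v ∈ Icc 1 M, ‖W v‖ ^ 2 = ‖((∑ v ∈ Icc 1 M, ‖W v‖ ^ 2 : ℝ) : ℂ)‖ := by
      rw [Complex.norm_real, Real.norm_eq_abs, abs_of_nonneg]
      exact sum_nonneg fun v _ => by positivity
    rw [h2, h1, mul_sum]
    refine (norm_sum_le _ _).trans (sum_le_sum fun u _ => ?_)
    rw [mul_sum]
    refine (norm_sum_le _ _).trans (sum_le_sum fun u' _ => ?_)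
    rw [norm_mul, Complex.norm_real, Real.norm_eq_abs, abs_mul]
    refine mul_le_mul_of_nonneg_right ?_ (norm_nonneg _)
    calc |a u| * |a u'| ≤ G * G := mul_le_mul (ha u) (ha u') (abs_nonneg _) hG
      _ = G ^ 2 := by ring
  have e6 : ∑ v ∈ Icc 1 M, (G * ‖W v‖) ^ 2 = G ^ 2 * ∑ v ∈ Icc 1 M, ‖W v‖ ^ 2 := by
    rw [mul_sum]
    exact sum_congr rfl fun v _ => by ring
  rw [e6] at e3
  calc ‖eS U M a c α‖ ^ 2 ≤ (M : ℝ) * (G ^ 2 * ∑ v ∈ Icc 1 M, ‖W v‖ ^ 2) := e3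
    _ ≤ (M : ℝ) * (G ^ 2 * (G ^ 2 * ∑ u ∈ Icc 1 U, ∑ u' ∈ Icc 1 U, ‖TT M α u u'‖)) := by
        refine mul_le_mul_of_nonneg_left ?_ (Nat.cast_nonneg _)
        exact mul_le_mul_of_nonneg_left e5 (by positivity)
    _ = _ := by ring

theorem hTYP (hWey : StWey) (hCsh : StCsh) : StTyp := by
  obtain ⟨C, hC, hcsh⟩ := hCsh
  refine ⟨1 + 2 * (1 + 2 * C), by positivity, ?_⟩
  intro U M q b α G a c hU hUM hq hA ha hc
  have hG : 0 ≤ G := (abs_nonneg _).trans (ha 0)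
  have hM : 3 ≤ M := hU.trans hUM
  have hq1 : 1 ≤ q := hA.1
  have hU0 : (0 : ℝ) < U := by exact_mod_cast (by omega : 0 < U)
  have hM0 : (0 : ℝ) < M := by exact_mod_cast (by omega : 0 < M)
  have hq0 : (0 : ℝ) < q := by exact_mod_cast (by omega : 0 < q)
  have hM3 : (3 : ℝ) ≤ M := by exact_mod_cast hM
  have hlog : 1 ≤ Real.log M := by
    have h3 : Real.log (Real.exp 1) ≤ Real.log M := by
      apply Real.log_le_log (Real.exp_pos 1)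
      have := Real.exp_one_lt_d9
      linarith
    rwa [Real.log_exp] at h3
  have hlog0 : 0 ≤ Real.log M := by linarith
  set Δ : ℝ := 1 / (q : ℝ) + 1 / M + q / ((U : ℝ) * M) ^ 2 with hΔ
  have hΔ0 : 0 < Δ := by
    rw [hΔ]
    positivity
  have hΔM : 1 / (M : ℝ) ≤ Δ := by
    rw [hΔ]
    have h1 : 0 ≤ 1 / (q : ℝ) := by positivity
    have h2 : 0 ≤ (q : ℝ) / ((U : ℝ) * M) ^ 2 := by positivity
    linarith
  set D : ℝ := Δ ^ (1 / 8 : ℝ) with hD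
  have hD0 : 0 < D := by
    rw [hD]
    positivity
  have hD2 : Δ ^ (1 / 4 : ℝ) = D ^ 2 := by
    rw [hD, ← Real.rpow_natCast, ← Real.rpow_mul hΔ0.le]
    norm_num
  have hDM : 1 / (M : ℝ) ≤ D ^ 2 := by
    rw [← hD2]
    have hM1 : 1 / (M : ℝ) ≤ 1 := by
      rw [div_le_one hM0]
      linarith
    calc 1 / (M : ℝ) = (1 / (M : ℝ)) ^ (1 : ℝ) := by rw [Real.rpow_one]
      _ ≤ (1 / (M : ℝ)) ^ (1 / 4 : ℝ) :=
          Real.rpow_le_rpow_of_exponent_ge (by positivity) hM1 (by norm_num)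
      _ ≤ Δ ^ (1 / 4 : ℝ) := Real.rpow_le_rpow (by positivity) hΔM (by norm_num)
  -- the off-diagonal sum
  set S1 : ℝ := ∑ u ∈ Icc 1 U, ∑ u' ∈ Ico 1 u, ‖TT M α u u'‖ with hS1
  have hS10 : 0 ≤ S1 := sum_nonneg fun u _ => sum_nonneg fun u' _ => norm_nonneg _
  have hcard : (∑ u ∈ Icc 1 U, ((Ico 1 u).card : ℝ)) ≤ (U : ℝ) ^ 2 := by
    have h1 : ∀ u ∈ Icc 1 U, ((Ico 1 u).card : ℝ) ≤ U := by
      intro u hu
      rw [mem_Icc] at hu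
      rw [Nat.card_Ico]
      exact_mod_cast (by omega : u - 1 ≤ U)
    calc (∑ u ∈ Icc 1 U, ((Ico 1 u).card : ℝ)) ≤ ∑ u ∈ Icc 1 U, (U : ℝ) := sum_le_sum h1
      _ = (U : ℝ) ^ 2 := by
        rw [sum_const, Nat.card_Icc, nsmul_eq_mul]
        simp
        ring
  have hsq : ∑ u ∈ Icc 1 U, ∑ u' ∈ Ico 1 u, ‖TT M α u u'‖ ^ 2 ≤
      (U : ℝ) ^ 2 * M + 2 * (C * (U : ℝ) ^ 2 * (M : ℝ) ^ 2 * Real.log M ^ 3 * D ^ 2) := by
    have h1 : ∀ u u' : ℕ, ‖TT M α u u'‖ ^ 2 ≤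
        M + 2 * ∑ h ∈ Icc 1 M, gs M (2 * h * (((ff u : ℝ) - ff u') * α)) := by
      intro u u'
      exact hWey M (((ff u : ℝ) - ff u') * α)
    have h2 : ∑ u ∈ Icc 1 U, ∑ u' ∈ Ico 1 u, ‖TT M α u u'‖ ^ 2 ≤
        ∑ u ∈ Icc 1 U, ∑ u' ∈ Ico 1 u,
          ((M : ℝ) + 2 * ∑ h ∈ Icc 1 M, gs M (2 * h * (((ff u : ℝ) - ff u') * α))) :=
      sum_le_sum fun u _ => sum_le_sum fun u' _ => h1 u u'
    have h3 : ∑ u ∈ Icc 1 U, ∑ u' ∈ Ico 1 u,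
          ((M : ℝ) + 2 * ∑ h ∈ Icc 1 M, gs M (2 * h * (((ff u : ℝ) - ff u') * α))) =
        (∑ u ∈ Icc 1 U, ((Ico 1 u).card : ℝ)) * M + 2 * ∑ u ∈ Icc 1 U, ∑ u' ∈ Ico 1 u,
          ∑ h ∈ Icc 1 M, gs M (2 * h * (((ff u : ℝ) - ff u') * α)) := by
      rw [sum_mul, mul_sum, ← sum_add_distrib]
      refine sum_congr rfl fun u _ => ?_
      rw [sum_add_distrib, sum_const, nsmul_eq_mul, mul_sum]
    have h4 := hcsh U M q b α hU hUM hq hA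
    rw [← hΔ, hD2] at h4
    rw [h3] at h2
    have h5 : (∑ u ∈ Icc 1 U, ((Ico 1 u).card : ℝ)) * M ≤ (U : ℝ) ^ 2 * M :=
      mul_le_mul_of_nonneg_right hcard hM0.le
    linarith
  have hS1sq : S1 ^ 2 ≤ ((1 + 2 * C) * ((U : ℝ) ^ 2 * M) * Real.log M ^ 2 * D) ^ 2 := by
    have h1 : S1 ^ 2 ≤ (∑ u ∈ Icc 1 U, ((Ico 1 u).card : ℝ)) *
        ∑ u ∈ Icc 1 U, ∑ u' ∈ Ico 1 u, ‖TT M α u u'‖ ^ 2 := by
      have := sq_sum_le_card_mul_sum_sq (s := (Icc 1 U).sigma fun u => Ico 1 u)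
        (f := fun p => ‖TT M α p.1 p.2‖)
      rw [sum_sigma, sum_sigma, card_sigma] at this
      push_cast at this
      exact this
    have h2 : S1 ^ 2 ≤ (U : ℝ) ^ 2 * ((U : ℝ) ^ 2 * M +
        2 * (C * (U : ℝ) ^ 2 * (M : ℝ) ^ 2 * Real.log M ^ 3 * D ^ 2)) := by
      refine h1.trans ?_
      refine mul_le_mul hcard hsq ?_ (by positivity)
      exact sum_nonneg fun u _ => sum_nonneg fun u' _ => by positivity
    have h3 : (M : ℝ) ≤ (M : ℝ) ^ 2 * (Real.log M ^ 3 * D ^ 2) := by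
      have h4 : (1 : ℝ) ≤ M * D ^ 2 := by
        have := mul_le_mul_of_nonneg_left hDM hM0.le
        rwa [mul_one_div_cancel hM0.ne'] at this
      have h5 : (1 : ℝ) ≤ Real.log M ^ 3 := one_le_pow₀ hlog
      have h6 : (1 : ℝ) ≤ Real.log M ^ 3 * (M * D ^ 2) := by
        calc (1 : ℝ) = 1 * 1 := by ring
          _ ≤ _ := mul_le_mul h5 h4 zero_le_one (by positivity)
      calc (M : ℝ) = M * 1 := by ring
        _ ≤ M * (Real.log M ^ 3 * (M * D ^ 2)) := mul_le_mul_of_nonneg_left h6 hM0.le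
        _ = _ := by ring
    have h7 : Real.log M ^ 3 ≤ Real.log M ^ 4 := pow_le_pow_right₀ hlog (by norm_num)
    have h8 : (U : ℝ) ^ 2 * ((U : ℝ) ^ 2 * M +
        2 * (C * (U : ℝ) ^ 2 * (M : ℝ) ^ 2 * Real.log M ^ 3 * D ^ 2)) ≤
        (1 + 2 * C) * ((U : ℝ) ^ 4 * (M : ℝ) ^ 2 * (Real.log M ^ 3 * D ^ 2)) := by
      have h9 : (U : ℝ) ^ 4 * M ≤ (U : ℝ) ^ 4 * ((M : ℝ) ^ 2 * (Real.log M ^ 3 * D ^ 2)) :=
        mul_le_mul_of_nonneg_left h3 (by positivity)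
      nlinarith [h9]
    have h10 : (1 + 2 * C) * ((U : ℝ) ^ 4 * (M : ℝ) ^ 2 * (Real.log M ^ 3 * D ^ 2)) ≤
        (1 + 2 * C) ^ 2 * ((U : ℝ) ^ 4 * (M : ℝ) ^ 2 * (Real.log M ^ 4 * D ^ 2)) := by
      refine mul_le_mul ?_ ?_ (by positivity) (by positivity)
      · nlinarith
      · refine mul_le_mul_of_nonneg_left ?_ (by positivity)
        exact mul_le_mul_of_nonneg_right h7 (by positivity)
    calc S1 ^ 2 ≤ _ := h2
      _ ≤ _ := h8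
      _ ≤ _ := h10
      _ = _ := by ring
  have hS1le : S1 ≤ (1 + 2 * C) * ((U : ℝ) ^ 2 * M) * Real.log M ^ 2 * D :=
    (pow_le_pow_iff_left₀ hS10 (by positivity) two_ne_zero).1 hS1sq
  have hsum : ∑ u ∈ Icc 1 U, ∑ u' ∈ Icc 1 U, ‖TT M α u u'‖ = U * M + 2 * S1 := by
    rw [sym_sum U (fun u u' => ‖TT M α u u'‖) (fun u u' => TT_symm M α u u')]
    congr 1
    rw [sum_congr rfl fun u _ => TT_self M α u]
    simp
  have hmain := step1 U M α G a c hG ha hc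
  rw [hsum] at hmain
  have hl2 : (1 : ℝ) ≤ Real.log M ^ 2 := one_le_pow₀ hlog
  have hfin : (U : ℝ) * M + 2 * S1 ≤
      (1 + 2 * (1 + 2 * C)) * (U : ℝ) ^ 2 * M * Real.log M ^ 2 * (1 / (U : ℝ) + D) := by
    have h1 : (U : ℝ) * M ≤ (U : ℝ) * M * Real.log M ^ 2 := by
      calc (U : ℝ) * M = (U : ℝ) * M * 1 := by ring
        _ ≤ _ := mul_le_mul_of_nonneg_left hl2 (by positivity)
    have h2 : (1 + 2 * (1 + 2 * C)) * (U : ℝ) ^ 2 * M * Real.log M ^ 2 * (1 / (U : ℝ) + D) =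
        (1 + 2 * (1 + 2 * C)) * ((U : ℝ) * M * Real.log M ^ 2) +
        (1 + 2 * (1 + 2 * C)) * ((U : ℝ) ^ 2 * M * Real.log M ^ 2 * D) := by
      field_simp
    rw [h2]
    have h3 : 0 ≤ (U : ℝ) * M * Real.log M ^ 2 := by positivity
    have h4 : 0 ≤ (U : ℝ) ^ 2 * M * Real.log M ^ 2 * D := by positivity
    nlinarith [mul_nonneg hC.le h3]
  calc ‖eS U M a c α‖ ^ 2 ≤ G ^ 4 * M * (U * M + 2 * S1) := hmain
    _ ≤ G ^ 4 * M * ((1 + 2 * (1 + 2 * C)) * (U : ℝ) ^ 2 * M * Real.log M ^ 2 *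
        (1 / (U : ℝ) + D)) := mul_le_mul_of_nonneg_left hfin (by positivity)
    _ = _ := by ring

end Pool.Agent.Helper63.SK
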